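import Pool.Agent.Y766.R8.Stm
import Pool.Agent.H510R2.Div

set_option autoImplicit false

/-! Project R8: a small number prime to `p` that does not divide `a`. -/

namespace Pool.Agent.Y891.R8

open Finset

theorem l0 : Pool.Agent.Y766.R8.S_L0 := by
  intro δ hδ
  obtain ⟨C0, hC0, hdiv⟩ := Pool.Agent.H510R2.divisor_bound (δ / 2) (by positivity)
  refine ⟨(2 * C0 + 2) ^ (2 / δ), fun p hp Q hQ a ha haQ => ?_⟩
  have hb : (1 : ℝ) ≤ 2 * C0 + 2 := by linarith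
  have hC1 : (1 : ℝ) ≤ (2 * C0 + 2) ^ (2 / δ) := Real.one_le_rpow hb (by positivity)
  have hQ1 : 1 ≤ Q := hC1.trans hQ
  have hQ0 : 0 ≤ Q := by linarith
  have hx : 2 * C0 + 2 ≤ Q ^ (δ / 2) := by
    have h1 : ((2 * C0 + 2) ^ (2 / δ)) ^ (δ / 2) ≤ Q ^ (δ / 2) :=
      Real.rpow_le_rpow (by positivity) hQ (by positivity)
    rw [← Real.rpow_mul (by linarith)] at h1
    have h2 : 2 / δ * (δ / 2) = 1 := by field_simp
    rwa [h2, Real.rpow_one] at h1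
  have hxx : Q ^ δ = Q ^ (δ / 2) * Q ^ (δ / 2) := by
    rw [← Real.rpow_add (by linarith)]
    congr 1
    ring
  obtain ⟨L, hL⟩ : ∃ L : ℕ, L = ⌊Q ^ δ⌋₊ := ⟨_, rfl⟩
  have hL1 : (L : ℝ) ≤ Q ^ δ := by
    rw [hL]; exact Nat.floor_le (by positivity)
  have hL2 : Q ^ δ < L + 1 := by
    rw [hL]; exact Nat.lt_floor_add_one _
  by_contra hcon
  push Not at hcon
  have hsub : (Ioc 0 L).filter (fun l => ¬ p ∣ l) ⊆ a.natAbs.divisors := by
    intro l hl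
    rw [mem_filter, mem_Ioc] at hl
    rw [Nat.mem_divisors]
    refine ⟨?_, Int.natAbs_ne_zero.2 ha⟩
    have h1 : (l : ℝ) ≤ Q ^ δ := le_trans (by exact_mod_cast hl.1.2) hL1
    have h2 := hcon l hl.1.1 h1 hl.2
    exact Int.natCast_dvd.1 h2
  have hcard := card_le_card hsub
  have h3 : ((Ioc 0 L).filter (fun l => p ∣ l)).card = L / p := Nat.Ioc_filter_dvd_card_eq_div L p
  have h4 : ((Ioc 0 L).filter (fun l => p ∣ l)).card +
      ((Ioc 0 L).filter (fun l => ¬ p ∣ l)).card = L := by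
    rw [Finset.card_filter_add_card_filter_not, Nat.card_Ioc, Nat.sub_zero]
  have h5 : L / p ≤ L / 2 := Nat.div_le_div_left hp.two_le (by norm_num)
  have h6 : L ≤ 2 * ((Ioc 0 L).filter (fun l => ¬ p ∣ l)).card := by omega
  have h7 : (L : ℝ) ≤ 2 * (a.natAbs.divisors.card : ℝ) := by
    have : L ≤ 2 * a.natAbs.divisors.card := by omega
    exact_mod_cast this
  have h8 := hdiv a.natAbs (Nat.one_le_iff_ne_zero.2 (Int.natAbs_ne_zero.2 ha))
  have h9 : ((a.natAbs : ℕ) : ℝ) = |(a : ℝ)| := by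
    rw [Nat.cast_natAbs, Int.cast_abs]
  rw [h9] at h8
  have h10 : |(a : ℝ)| ^ (δ / 2) ≤ Q ^ (δ / 2) :=
    Real.rpow_le_rpow (abs_nonneg _) haQ (by positivity)
  have h11 : C0 * |(a : ℝ)| ^ (δ / 2) ≤ C0 * Q ^ (δ / 2) := mul_le_mul_of_nonneg_left h10 hC0.le
  obtain ⟨x, hxd⟩ : ∃ x : ℝ, x = Q ^ (δ / 2) := ⟨_, rfl⟩
  rw [← hxd] at hx hxx h11
  nlinarith

end Pool.Agent.Y891.R8
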